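import Pool.Agent.helper11.PV.Com11b

set_option autoImplicit false

open scoped Matrix Topology
open Filter

namespace Pool.Agent.PV

open Pool.Agent.CZ

section

attribute [local instance] Matrix.linftyOpNormedRing

/-- approximation of an isomorphism by one over a subalgebra -/
theorem CI0_key {A I : Type} [NormedRing A] [NormedAlgebra ℂ A] [CompleteSpace A] (S : Finset I → Subalgebra ℂ A)
    (hS : Monotone S) (hcl : ∀ F, IsClosed (S F : Set A)) (hd : Dense {a : A | ∃ F, a ∈ S F}) (ι : Type)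
    [Fintype ι] [DecidableEq ι] (F : Finset I) (E P : Matrix ι ι (S F)) (hE : E * E = E) (hP : P * P = P)
    (g : (Matrix ι ι A)ˣ) (hg : (g : Matrix ι ι A) * E.map (S F).val = P.map (S F).val * g) :
    ∃ (F' : Finset I) (h : F ⊆ F') (x y : Matrix ι ι (S F')),
      x * y = E.map (Subalgebra.inclusion (hS h)) ∧ y * x = P.map (Subalgebra.inclusion (hS h)) := by
  obtain ⟨E₀, hE₀⟩ : ∃ M : Matrix ι ι A, M = E.map (S F).val := ⟨_, rfl⟩
  obtain ⟨P₀, hP₀⟩ : ∃ M : Matrix ι ι A, M = P.map (S F).val := ⟨_, rfl⟩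
  have hEE : E₀ * E₀ = E₀ := by
    have h := congrArg ((S F).val.toRingHom.mapMatrix) hE
    rw [map_mul] at h
    rw [hE₀]
    exact h
  have hPP : P₀ * P₀ = P₀ := by
    have h := congrArg ((S F).val.toRingHom.mapMatrix) hP
    rw [map_mul] at h
    rw [hP₀]
    exact h
  rw [← hE₀, ← hP₀] at hg
  obtain ⟨g', hg'⟩ : ∃ M : Matrix ι ι A, M = ((g⁻¹ : (Matrix ι ι A)ˣ) : Matrix ι ι A) := ⟨_, rfl⟩
  obtain ⟨g₁, hg₁⟩ : ∃ M : Matrix ι ι A, M = (g : Matrix ι ι A) := ⟨_, rfl⟩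
  have hi1 : g' * g₁ = 1 := by rw [hg', hg₁, Units.inv_mul]
  have hi2 : g₁ * g' = 1 := by rw [hg', hg₁, Units.mul_inv]
  rw [← hg₁] at hg
  -- approximation
  have hopen : IsOpen {q : Matrix ι ι A × Matrix ι ι A |
      ‖E₀ - (E₀ * q.2 * P₀) * (P₀ * q.1 * E₀)‖ < 1 ∧ ‖P₀ - (P₀ * q.1 * E₀) * (E₀ * q.2 * P₀)‖ < 1} := by
    have c1 : Continuous fun q : Matrix ι ι A × Matrix ι ι A => P₀ * q.1 * E₀ :=
      (continuous_const.mul continuous_fst).mul continuous_const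
    have c2 : Continuous fun q : Matrix ι ι A × Matrix ι ι A => E₀ * q.2 * P₀ :=
      (continuous_const.mul continuous_snd).mul continuous_const
    have c3 : Continuous fun q : Matrix ι ι A × Matrix ι ι A => ‖E₀ - (E₀ * q.2 * P₀) * (P₀ * q.1 * E₀)‖ :=
      continuous_norm.comp (continuous_const.sub (c2.mul c1))
    have c4 : Continuous fun q : Matrix ι ι A × Matrix ι ι A => ‖P₀ - (P₀ * q.1 * E₀) * (E₀ * q.2 * P₀)‖ :=
      continuous_norm.comp (continuous_const.sub (c1.mul c2))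
    exact (isOpen_lt c3 continuous_const).inter (isOpen_lt c4 continuous_const)
  have hmem : (g₁, g') ∈ {q : Matrix ι ι A × Matrix ι ι A |
      ‖E₀ - (E₀ * q.2 * P₀) * (P₀ * q.1 * E₀)‖ < 1 ∧ ‖P₀ - (P₀ * q.1 * E₀) * (E₀ * q.2 * P₀)‖ < 1} := by
    have e1 : (E₀ * g' * P₀) * (P₀ * g₁ * E₀) = E₀ := by
      calc (E₀ * g' * P₀) * (P₀ * g₁ * E₀) = E₀ * g' * (P₀ * P₀ * g₁) * E₀ := by noncomm_ring
        _ = E₀ * (g' * g₁) * (E₀ * E₀) := by
            rw [hPP, ← hg]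
            noncomm_ring
        _ = E₀ := by rw [hi1, hEE, mul_one, hEE]
    have e2 : (P₀ * g₁ * E₀) * (E₀ * g' * P₀) = P₀ := by
      calc (P₀ * g₁ * E₀) * (E₀ * g' * P₀) = P₀ * (g₁ * (E₀ * E₀)) * g' * P₀ := by noncomm_ring
        _ = (P₀ * P₀) * (g₁ * g') * P₀ := by
            rw [hEE, hg]
            noncomm_ring
        _ = P₀ := by rw [hi2, hPP, mul_one, hPP]
    refine ⟨?_, ?_⟩
    · show ‖E₀ - (E₀ * g' * P₀) * (P₀ * g₁ * E₀)‖ < 1
      rw [e1, sub_self, norm_zero]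
      exact one_pos
    · show ‖P₀ - (P₀ * g₁ * E₀) * (E₀ * g' * P₀)‖ < 1
      rw [e2, sub_self, norm_zero]
      exact one_pos
  obtain ⟨⟨a, b⟩, ⟨h1, h2⟩, ha, hb⟩ := ((E11_dense S hd ι).prod (E11_dense S hd ι)).inter_open_nonempty _ hopen
    ⟨_, hmem⟩
  obtain ⟨F₁, hF₁, ha₁⟩ := E11_union S hS a ha F
  obtain ⟨F', hF', hb₁⟩ := E11_union S hS b hb F₁
  have hFF : F ⊆ F' := hF₁.trans hF'
  have ha₂ : ∀ i j, a i j ∈ S F' := fun i j => hS hF' (ha₁ i j)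
  have hcS : CompleteSpace (S F') := (hcl F').completeSpace_coe
  have hcR : E11_CS (Matrix ι ι (S F')) := E11_complete ι (S F')
  obtain ⟨a₀, ha₀⟩ : ∃ M : Matrix ι ι (S F'), M.map (S F').val = a := ⟨fun i j => ⟨a i j, ha₂ i j⟩, rfl⟩
  obtain ⟨b₀, hb₀⟩ : ∃ M : Matrix ι ι (S F'), M.map (S F').val = b := ⟨fun i j => ⟨b i j, hb₁ i j⟩, rfl⟩
  obtain ⟨E₁, hE₁⟩ : ∃ M : Matrix ι ι (S F'), M = E.map (Subalgebra.inclusion (hS hFF)) := ⟨_, rfl⟩
  obtain ⟨P₁, hP₁⟩ : ∃ M : Matrix ι ι (S F'), M = P.map (Subalgebra.inclusion (hS hFF)) := ⟨_, rfl⟩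
  have hE₂ : E₁.map (S F').val = E₀ := by rw [hE₁, hE₀]; rfl
  have hP₂ : P₁.map (S F').val = P₀ := by rw [hP₁, hP₀]; rfl
  have hEE₁ : E₁ * E₁ = E₁ := by
    have h := congrArg ((Subalgebra.inclusion (hS hFF)).toRingHom.mapMatrix) hE
    rw [map_mul] at h
    rw [hE₁]
    exact h
  have hPP₁ : P₁ * P₁ = P₁ := by
    have h := congrArg ((Subalgebra.inclusion (hS hFF)).toRingHom.mapMatrix) hP
    rw [map_mul] at h
    rw [hP₁]
    exact h
  have hmul : ∀ M N : Matrix ι ι (S F'), (M * N).map (S F').val = M.map (S F').val * N.map (S F').val :=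
    fun M N => map_mul ((S F').val.toRingHom.mapMatrix) M N
  have hsub : ∀ M N : Matrix ι ι (S F'), (M - N).map (S F').val = M.map (S F').val - N.map (S F').val :=
    fun M N => map_sub ((S F').val.toRingHom.mapMatrix) M N
  have n1 : ‖E₁ - (E₁ * b₀ * P₁) * (P₁ * a₀ * E₁)‖ < 1 := by
    rw [E11_norm, hsub, hmul, hmul, hmul, hmul, hmul, ha₀, hb₀, hE₂, hP₂]
    exact h1
  have n2 : ‖P₁ - (P₁ * a₀ * E₁) * (E₁ * b₀ * P₁)‖ < 1 := by
    rw [E11_norm, hsub, hmul, hmul, hmul, hmul, hmul, ha₀, hb₀, hE₂, hP₂]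
    exact h2
  obtain ⟨y', hy1, hy2⟩ := @E11_corner (Matrix ι ι (S F')) _ hcR E₁ P₁ (P₁ * a₀ * E₁) (E₁ * b₀ * P₁) hEE₁ hPP₁
    (by rw [← mul_assoc, ← mul_assoc, hPP₁]) (by rw [mul_assoc, hEE₁]) (by rw [← mul_assoc, ← mul_assoc, hEE₁])
    (by rw [mul_assoc, hPP₁]) n1 n2
  refine ⟨F', hFF, y', P₁ * a₀ * E₁, ?_, ?_⟩
  · rw [← hE₁]
    exact hy2
  · rw [← hP₁]
    exact hy1

end

/-- row pv:CI0 -/
theorem CI0 (hK0G : K0G_stmt) (hK0C : K0C_stmt) (hK0E : K0E_stmt) (hK0B : K0B_stmt) (_hK1C : K1C_stmt)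
    (_hCLO : CZ.CLO_stmt) : CI0_stmt := by
  classical
  intro A I _ _ _ S hS hcl hd F w hw
  obtain ⟨n, m, e, he, rfl⟩ := hK0G (S F) w
  -- the same size
  have blk : ∀ {R : Type} [Ring R] {ι κ : Type} [Fintype ι] [Fintype κ] (a : Matrix ι ι R) (b : Matrix κ κ R),
      a * a = a → b * b = b → Matrix.fromBlocks a 0 0 b * Matrix.fromBlocks a 0 0 b = Matrix.fromBlocks a 0 0 b := by
    intro R _ ι κ _ _ a b ha hb
    rw [Matrix.fromBlocks_multiply, ha, hb]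
    simp
  obtain ⟨E, hE⟩ : ∃ M : Matrix (Fin n ⊕ Fin m) (Fin n ⊕ Fin m) (S F), M = Matrix.fromBlocks e 0 0 0 := ⟨_, rfl⟩
  obtain ⟨P, hP⟩ : ∃ M : Matrix (Fin n ⊕ Fin m) (Fin n ⊕ Fin m) (S F), M = Matrix.fromBlocks 0 0 0 1 := ⟨_, rfl⟩
  have hEE : E * E = E := by rw [hE]; exact blk e 0 he (mul_zero 0)
  have hPP : P * P = P := by rw [hP]; exact blk 0 1 (mul_zero 0) (mul_one 1)
  have cE : k0 E hEE = k0 e he := by
    subst hE
    rw [hK0B.1 (S F) (Fin n) (Fin m) e 0 he (mul_zero 0) hEE, hK0B.2.1 (S F) (Fin m) (mul_zero 0), add_zero]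
  have cP : k0 P hPP = m • unitCls (S F) := by
    subst hP
    rw [hK0B.1 (S F) (Fin n) (Fin m) 0 1 (mul_zero 0) (mul_one 1) hPP, hK0B.2.1 (S F) (Fin n) (mul_zero 0), zero_add,
      hK0B.2.2 (S F) (Fin m) (mul_one 1), Fintype.card_fin]
  rw [← cE, ← cP, map_sub, sub_eq_zero] at hw
  have hE1 : E.map (S F).val.toRingHom * E.map (S F).val.toRingHom = E.map (S F).val.toRingHom := by
    have h := congrArg ((S F).val.toRingHom.mapMatrix) hEE
    rw [map_mul] at h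
    exact h
  have hP1 : P.map (S F).val.toRingHom * P.map (S F).val.toRingHom = P.map (S F).val.toRingHom := by
    have h := congrArg ((S F).val.toRingHom.mapMatrix) hPP
    rw [map_mul] at h
    exact h
  rw [k0map_k0 _ E hEE hE1, k0map_k0 _ P hPP hP1] at hw
  obtain ⟨k, l, g, hg⟩ := hK0C A _ _ _ hE1 hP1 hw
  rw [← E11_pad, ← E11_pad] at hg
  have hpE : pad E k l * pad E k l = pad E k l := blk E _ hEE (blk 1 0 (mul_one 1) (mul_zero 0))
  have hpP : pad P k l * pad P k l = pad P k l := blk P _ hPP (blk 1 0 (mul_one 1) (mul_zero 0))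
  obtain ⟨F', hF', x, y, hxy, hyx⟩ := CI0_key S hS hcl hd _ F (pad E k l) (pad P k l) hpE hpP g hg
  refine ⟨F', hF', ?_⟩
  obtain ⟨ψ, hψ⟩ : ∃ ψ : S F →+* S F', ψ = (Subalgebra.inclusion (hS hF')).toRingHom := ⟨_, rfl⟩
  have mapidem : ∀ {ι : Type} [Fintype ι] [DecidableEq ι] (M : Matrix ι ι (S F)), M * M = M →
      M.map ψ * M.map ψ = M.map ψ := by
    intro ι _ _ M hM
    have h := congrArg (ψ.mapMatrix) hM
    rw [map_mul] at h
    exact h
  have hxy' : x * y = pad (E.map ψ) k l := by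
    rw [← E11_pad, hψ]
    exact hxy
  have hyx' : y * x = pad (P.map ψ) k l := by
    rw [← E11_pad, hψ]
    exact hyx
  have hEψ := mapidem E hEE
  have hPψ := mapidem P hPP
  have hpE' : pad (E.map ψ) k l * pad (E.map ψ) k l = pad (E.map ψ) k l :=
    blk _ _ hEψ (blk 1 0 (mul_one 1) (mul_zero 0))
  have hpP' : pad (P.map ψ) k l * pad (P.map ψ) k l = pad (P.map ψ) k l :=
    blk _ _ hPψ (blk 1 0 (mul_one 1) (mul_zero 0))
  have h1 := hK0E (S F') _ _ _ _ hpE' hpP' x y hxy' hyx'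
  have h2 : ∀ (M : Matrix (Fin n ⊕ Fin m) (Fin n ⊕ Fin m) (S F')) (hM : M * M = M)
      (hpM : pad M k l * pad M k l = pad M k l), k0 (pad M k l) hpM = k0 M hM +
      k0 (Matrix.fromBlocks (1 : Matrix (Fin k) (Fin k) (S F')) 0 0 (0 : Matrix (Fin l) (Fin l) (S F')))
        (blk 1 0 (mul_one 1) (mul_zero 0)) := fun M hM hpM => hK0B.1 (S F') _ _ M _ hM _ hpM
  rw [h2 _ hEψ hpE', h2 _ hPψ hpP'] at h1
  have h3 := add_right_cancel h1
  rw [← cE, ← cP, map_sub, sub_eq_zero, ← hψ, k0map_k0 _ E hEE hEψ, k0map_k0 _ P hPP hPψ]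
  exact h3

end Pool.Agent.PV
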