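import Pool.Agent.helper11.PV.Com11b
import Pool.Agent.helper92.CZ.SMI

set_option autoImplicit false

open scoped Matrix Topology
open Filter

namespace Pool.Agent.PV

open Pool.Agent.CZ

section

attribute [local instance] Matrix.linftyOpNormedRing

theorem CS0_idem (hNEW : CZ.NEW_stmt) {A I : Type} [NormedRing A] [NormedAlgebra ℂ A] [CompleteSpace A]
    (S : Finset I → Subalgebra ℂ A) (hS : Monotone S) (hcl : ∀ F, IsClosed (S F : Set A))
    (hd : Dense {a : A | ∃ F, a ∈ S F}) (n : ℕ) (e : Matrix (Fin n) (Fin n) A) (he : e * e = e) (ε : ℝ)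
    (hε : 0 < ε) : ∃ (F : Finset I) (f : Matrix (Fin n) (Fin n) A), f * f = f ∧ (∀ i j, f i j ∈ S F) ∧
      ∀ i j, ‖e i j - f i j‖ < ε := by
  have hcomp : E11_CS (Matrix (Fin n) (Fin n) A) := E11_complete (Fin n) A
  obtain ⟨δ, hδ, hnew⟩ := @hNEW (Matrix (Fin n) (Fin n) A) _ hcomp (‖e‖ + 1) (ε / 4) (by positivity)
  -- an open neighbourhood of `e`
  have hopen : IsOpen {a : Matrix (Fin n) (Fin n) A | ‖a‖ < ‖e‖ + 1 ∧ ‖a * a - a‖ < δ ∧ ‖e - a‖ < ε / 4} := by
    have c1 : Continuous fun a : Matrix (Fin n) (Fin n) A => ‖a‖ := continuous_norm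
    have c2 : Continuous fun a : Matrix (Fin n) (Fin n) A => ‖a * a - a‖ :=
      continuous_norm.comp ((continuous_id.mul continuous_id).sub continuous_id)
    have c3 : Continuous fun a : Matrix (Fin n) (Fin n) A => ‖e - a‖ :=
      continuous_norm.comp (continuous_const.sub continuous_id)
    exact (isOpen_lt c1 continuous_const).inter ((isOpen_lt c2 continuous_const).inter
      (isOpen_lt c3 continuous_const))
  obtain ⟨a, ⟨h1, h2, h3⟩, ha⟩ := (E11_dense S hd (Fin n)).inter_open_nonempty _ hopen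
    ⟨e, by
      refine ⟨by linarith, ?_, ?_⟩
      · rw [he, sub_self, norm_zero]
        exact hδ
      · rw [sub_self, norm_zero]
        positivity⟩
  obtain ⟨F, -, hF⟩ := E11_union S hS a ha ∅
  obtain ⟨f, hfT, hff, hfa⟩ := hnew (SMI_T n (S F).toSubring) (SMI_closed n _ (hcl F)) a hF h1.le h2.le
  refine ⟨F, f, hff, hfT, fun i j => ?_⟩
  calc ‖e i j - f i j‖ = ‖(e - f) i j‖ := by rw [Matrix.sub_apply]
    _ ≤ ‖e - f‖ := E11_entry _ i j
    _ = ‖(e - a) + (a - f)‖ := by rw [sub_add_sub_cancel]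
    _ ≤ ‖e - a‖ + ‖a - f‖ := norm_add_le _ _
    _ < ε := by
      rw [norm_sub_rev a f]
      linarith

end

/-- row pv:CS0 -/
theorem CS0 (_hK0E : K0E_stmt) (hNEW : CZ.NEW_stmt) (hCLO : CZ.CLO_stmt) : CS0_stmt := by
  classical
  intro A I _ _ _ S hS hcl hd z
  have hgen : ∀ p : IdemMat A, ∃ (F : Finset I) (w : K0 (S F)), cls p = k0map (S F).val.toRingHom w := by
    rintro ⟨n, e, he⟩
    obtain ⟨ε, hε, hclo⟩ := hCLO A n e he
    obtain ⟨F, f, hff, hF, hef⟩ := CS0_idem hNEW S hS hcl hd n e he ε hε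
    obtain ⟨x, y, hxy, hyx⟩ := hclo f hff hef
    obtain ⟨f₀, hf₀⟩ : ∃ M : Matrix (Fin n) (Fin n) (S F), M.map (S F).val = f := ⟨fun i j => ⟨f i j, hF i j⟩, rfl⟩
    have h0 : f₀ * f₀ = f₀ := by
      apply Matrix.map_injective (f := (S F).val) Subtype.val_injective
      have h1 : (f₀ * f₀).map (S F).val = f₀.map (S F).val * f₀.map (S F).val :=
        map_mul ((S F).val.toRingHom.mapMatrix) f₀ f₀
      show (f₀ * f₀).map (S F).val = f₀.map (S F).val
      rw [h1, hf₀, hff]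
    subst hf₀
    refine ⟨F, cls ⟨n, f₀, h0⟩, ?_⟩
    exact E11_cls ⟨n, e, he⟩ ⟨n, _, hff⟩ x y hxy hyx
  have hup : ∀ (F F' : Finset I) (h : F ≤ F') (w : K0 (S F)), ∃ w' : K0 (S F'),
      k0map (S F).val.toRingHom w = k0map (S F').val.toRingHom w' := by
    intro F F' h w
    refine ⟨k0map (Subalgebra.inclusion (hS h)).toRingHom w, ?_⟩
    rw [← E11_fun]
    rfl
  obtain ⟨w, rfl⟩ := QuotientAddGroup.mk_surjective z
  induction w using FreeAbelianGroup.induction_on with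
  | zero => exact ⟨∅, 0, by rw [map_zero]; rfl⟩
  | of p => exact hgen p
  | neg p _ =>
    obtain ⟨F, w, hw⟩ := hgen p
    refine ⟨F, -w, ?_⟩
    rw [map_neg, ← hw]
    rfl
  | add a b ha hb =>
    obtain ⟨F, w, hw⟩ := ha
    obtain ⟨F', w', hw'⟩ := hb
    obtain ⟨v, hv⟩ := hup F (F ∪ F') Finset.subset_union_left w
    obtain ⟨v', hv'⟩ := hup F' (F ∪ F') Finset.subset_union_right w'
    refine ⟨F ∪ F', v + v', ?_⟩
    rw [map_add, ← hv, ← hv', ← hw, ← hw']
    rfl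

end Pool.Agent.PV
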