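import Pool.Agent.helper77.PV.SpecA

/-!
# Project pv: common lemmas for the rows of helper11
-/

set_option autoImplicit false

open scoped Matrix Topology
open Filter

namespace Pool.Agent.PV

open Pool.Agent.CZ

theorem E11_cls {A : Type} [Ring A] (p q : IdemMat A) (x : Matrix (Fin p.n) (Fin q.n) A)
    (y : Matrix (Fin q.n) (Fin p.n) A) (h1 : x * y = p.e) (h2 : y * x = q.e) : cls p = cls q := by
  unfold cls
  rw [QuotientAddGroup.eq_iff_sub_mem]
  exact AddSubgroup.subset_closure (Or.inl ⟨p, q, ⟨x, y, h1, h2⟩, rfl⟩)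

theorem E11_k0 {A : Type} [Ring A] {ι κ : Type} [Fintype ι] [Fintype κ] (e : Matrix ι ι A)
    (f : Matrix κ κ A) (he : e * e = e) (hf : f * f = f) (x : Matrix ι κ A) (y : Matrix κ ι A)
    (h1 : x * y = e) (h2 : y * x = f) : k0 e he = k0 f hf := by
  unfold k0
  refine E11_cls _ _ (x.submatrix (Fintype.equivFin ι).symm (Fintype.equivFin κ).symm)
    (y.submatrix (Fintype.equivFin κ).symm (Fintype.equivFin ι).symm) ?_ ?_
  · rw [Matrix.submatrix_mul_equiv, h1]
  · rw [Matrix.submatrix_mul_equiv, h2]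

/-- the class of a matrix over `Fin n` -/
theorem E11_fin {A : Type} [Ring A] (n : ℕ) (e : Matrix (Fin n) (Fin n) A) (he : e * e = e) :
    cls ⟨n, e, he⟩ = k0 e he := by
  unfold k0
  refine E11_cls _ _ (e.submatrix id (Fintype.equivFin (Fin n)).symm)
    (e.submatrix (Fintype.equivFin (Fin n)).symm id) ?_ ?_
  · rw [Matrix.submatrix_mul_equiv e e id (Fintype.equivFin (Fin n)).symm id, he]
    rfl
  · have h := Matrix.submatrix_mul_equiv e e (Fintype.equivFin (Fin n)).symm (Equiv.refl (Fin n))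
      (Fintype.equivFin (Fin n)).symm
    rw [he] at h
    exact h

/-- renaming the indices -/
theorem E11_reindex {A : Type} [Ring A] {ι κ : Type} [Fintype ι] [Fintype κ] (σ : ι ≃ κ) (e : Matrix ι ι A)
    (he : e * e = e) (h : e.submatrix σ.symm σ.symm * e.submatrix σ.symm σ.symm = e.submatrix σ.symm σ.symm) :
    k0 e he = k0 (e.submatrix σ.symm σ.symm) h := by
  refine E11_k0 _ _ _ _ (e.submatrix id σ.symm) (e.submatrix σ.symm id) ?_ ?_
  · rw [Matrix.submatrix_mul_equiv e e id σ.symm id, he]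
    rfl
  · have h := Matrix.submatrix_mul_equiv e e σ.symm (Equiv.refl ι) σ.symm
    rw [he] at h
    exact h

theorem E11_congr {A : Type} [Ring A] {ι : Type} [Fintype ι] {e f : Matrix ι ι A} (h : e = f)
    (he : e * e = e) (hf : f * f = f) : k0 e he = k0 f hf := by
  subst h
  rfl

theorem E11_add {A : Type} [Ring A] {ι : Type} [Fintype ι] (e f : Matrix ι ι A) (he : e * e = e)
    (hf : f * f = f) (hs : (e + f) * (e + f) = e + f) (h1 : e * f = 0) (h2 : f * e = 0) :
    k0 (e + f) hs = k0 e he + k0 f hf := by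
  unfold k0 cls
  rw [← QuotientAddGroup.mk_add, QuotientAddGroup.eq_iff_sub_mem, ← sub_sub]
  refine AddSubgroup.subset_closure (Or.inr ⟨Fintype.card ι,
    e.submatrix (Fintype.equivFin ι).symm (Fintype.equivFin ι).symm,
    f.submatrix (Fintype.equivFin ι).symm (Fintype.equivFin ι).symm, ?_, ?_, ?_, ?_, ?_, rfl⟩)
  · rw [Matrix.submatrix_mul_equiv, he]
  · rw [Matrix.submatrix_mul_equiv, hf]
  · have h3 : e.submatrix (Fintype.equivFin ι).symm (Fintype.equivFin ι).symm +
        f.submatrix (Fintype.equivFin ι).symm (Fintype.equivFin ι).symm =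
        (e + f).submatrix (Fintype.equivFin ι).symm (Fintype.equivFin ι).symm := rfl
    rw [h3, Matrix.submatrix_mul_equiv, hs]
  · rw [Matrix.submatrix_mul_equiv, h1]
    rfl
  · rw [Matrix.submatrix_mul_equiv, h2]
    rfl

theorem E11_rix {A : Type} [Ring A] {ι κ : Type} [Fintype ι] [DecidableEq ι] [Fintype κ] [DecidableEq κ]
    (f : ι ≃ κ) (g : (Matrix ι ι A)ˣ) : (rix f g : Matrix κ κ A) = (g : Matrix ι ι A).submatrix f.symm f.symm := rfl

theorem E11_cls1 {A : Type} [Ring A] [TopologicalSpace A] (hK1R : K1R_stmt) (N : ℕ)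
    (u : (Matrix (Fin N) (Fin N) A)ˣ) : cls1 ⟨N, u⟩ = k1 u := by
  have key : ∀ (n' : ℕ) (hn : n' = N) (τ : Fin N ≃ Fin n'),
      (∀ (f : Fin N ≃ Fin N) (g : (Matrix (Fin N) (Fin N) A)ˣ),
        cls1 (⟨n', rix τ (rix f g)⟩ : InvMat A) = cls1 ⟨n', rix τ g⟩) →
      cls1 (⟨N, u⟩ : InvMat A) = cls1 ⟨n', rix τ u⟩ := by
    intro n' hn τ H
    subst hn
    have h := H τ (rix τ.symm u)
    have h1 : rix τ (rix τ.symm u) = u := by
      apply Units.ext
      rw [E11_rix, E11_rix]
      ext i j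
      simp [Matrix.submatrix_apply]
    rw [h1] at h
    exact h.symm
  exact key (Fintype.card (Fin N)) (Fintype.card_fin N) (Fintype.equivFin (Fin N))
    (fun f g => hK1R A (Fin N) (Fin N) f g)

/-- functoriality, on all elements -/
theorem E11_fun {A B C : Type} [Ring A] [Ring B] [Ring C] (φ : A →+* B) (ψ : B →+* C) (z : K0 A) :
    k0map (ψ.comp φ) z = k0map ψ (k0map φ z) := by
  obtain ⟨w, rfl⟩ := QuotientAddGroup.mk_surjective z
  induction w using FreeAbelianGroup.induction_on with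
  | zero => rfl
  | of p => rfl
  | neg p _ => rfl
  | add a b ha hb =>
    rw [QuotientAddGroup.mk_add, map_add, map_add, map_add, ha, hb]

end Pool.Agent.PV
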