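import Pool.Agent.helper11.PV.Com11

/-!
# Project pv: common lemmas on matrices over closed subalgebras
-/

set_option autoImplicit false

open scoped Matrix Topology
open Filter

namespace Pool.Agent.PV

open Pool.Agent.CZ

section

attribute [local instance] Matrix.linftyOpNormedRing

theorem E11_corner {R : Type} [NormedRing R] [CompleteSpace R] (E P x y : R) (hE : E * E = E) (hP : P * P = P)
    (h1 : P * x = x) (h2 : x * E = x) (h3 : E * y = y) (h4 : y * P = y) (h5 : ‖E - y * x‖ < 1)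
    (h6 : ‖P - x * y‖ < 1) : ∃ y', x * y' = P ∧ y' * x = E := by
  obtain ⟨u, hu⟩ : ∃ u : Rˣ, (u : R) = 1 - (E - y * x) := ⟨Units.oneSub (E - y * x) h5, Units.val_oneSub _ h5⟩
  obtain ⟨v, hv⟩ : ∃ v : Rˣ, (v : R) = 1 - (P - x * y) := ⟨Units.oneSub (P - x * y) h6, Units.val_oneSub _ h6⟩
  have e1 : (u : R) * E = y * x := by
    rw [hu]
    have h : (1 - (E - y * x)) * E = E - E * E + y * (x * E) := by noncomm_ring
    rw [h, hE, h2, sub_self, zero_add]
  have e2 : P * (v : R) = x * y := by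
    rw [hv]
    have h : P * (1 - (P - x * y)) = P - P * P + (P * x) * y := by noncomm_ring
    rw [h, hP, h1, sub_self, zero_add]
  obtain ⟨y₁, hy₁⟩ : ∃ y₁ : R, y₁ = ((u⁻¹ : Rˣ) : R) * y := ⟨_, rfl⟩
  obtain ⟨y₂, hy₂⟩ : ∃ y₂ : R, y₂ = y * ((v⁻¹ : Rˣ) : R) := ⟨_, rfl⟩
  have e3 : y₁ * x = E := by
    rw [hy₁, mul_assoc, ← e1, ← mul_assoc, Units.inv_mul, one_mul]
  have e4 : x * y₂ = P := by
    rw [hy₂, ← mul_assoc, ← e2, mul_assoc, Units.mul_inv, mul_one]
  have e5 : y₁ * P = y₁ := by rw [hy₁, mul_assoc, h4]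
  have e6 : E * y₂ = y₂ := by rw [hy₂, ← mul_assoc, h3]
  have e7 : y₁ = y₂ := by
    rw [← e5, ← e4, ← mul_assoc, e3, e6]
  refine ⟨y₂, e4, ?_⟩
  rw [← e7]
  exact e3

/-- matrices with entries in a union of subalgebras -/
theorem E11_dense {A I : Type} [NormedRing A] [NormedAlgebra ℂ A] (S : Finset I → Subalgebra ℂ A)
    (hd : Dense {a : A | ∃ F, a ∈ S F}) (ι : Type) [Fintype ι] [DecidableEq ι] :
    Dense {a : Matrix ι ι A | ∀ i j, ∃ F, a i j ∈ S F} := by
  have h : Dense (Set.pi Set.univ fun _ : ι => Set.pi Set.univ fun _ : ι => {a : A | ∃ F, a ∈ S F}) :=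
    dense_pi _ fun _ _ => dense_pi _ fun _ _ => hd
  have h2 : {a : Matrix ι ι A | ∀ i j, ∃ F, a i j ∈ S F} =
      (Set.pi Set.univ fun _ : ι => Set.pi Set.univ fun _ : ι => {a : A | ∃ F, a ∈ S F}) := by
    ext a
    exact ⟨fun h i _ j _ => h i j, fun h i j => h i trivial j trivial⟩
  rw [h2]
  exact h

theorem E11_union {A I : Type} [NormedRing A] [NormedAlgebra ℂ A] (S : Finset I → Subalgebra ℂ A)
    (hS : Monotone S) {ι : Type} [Fintype ι] (a : Matrix ι ι A) (ha : ∀ i j, ∃ F, a i j ∈ S F) (F₀ : Finset I) :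
    ∃ F, F₀ ⊆ F ∧ ∀ i j, a i j ∈ S F := by
  classical
  choose F hF using ha
  refine ⟨F₀ ∪ Finset.univ.biUnion fun i => Finset.univ.biUnion fun j => F i j, Finset.subset_union_left, ?_⟩
  intro i j
  refine hS ?_ (hF i j)
  refine le_trans ?_ Finset.subset_union_right
  refine le_trans ?_ (Finset.subset_biUnion_of_mem (fun i => Finset.univ.biUnion fun j => F i j) (Finset.mem_univ i))
  exact Finset.subset_biUnion_of_mem (fun j => F i j) (Finset.mem_univ j)

/-- completeness for the uniform structure of the normed ring -/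
def E11_CS (B : Type) [NormedRing B] : Prop := CompleteSpace B

theorem E11_complete (ι : Type) [Fintype ι] [DecidableEq ι] (B : Type) [NormedRing B] [CompleteSpace B] :
    E11_CS (Matrix ι ι B) := by
  unfold E11_CS
  exact (inferInstance : CompleteSpace (Matrix ι ι B))

theorem E11_norm {A : Type} [NormedRing A] [NormedAlgebra ℂ A] (S : Subalgebra ℂ A) (ι : Type) [Fintype ι]
    [DecidableEq ι] (m : Matrix ι ι S) : ‖m‖ = ‖m.map (S.val)‖ := by
  rw [Matrix.linfty_opNorm_def, Matrix.linfty_opNorm_def]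
  rfl

theorem E11_entry {ι : Type} [Fintype ι] [DecidableEq ι] {B : Type} [NormedRing B] (M : Matrix ι ι B) (i j : ι) :
    ‖M i j‖ ≤ ‖M‖ := by
  have h1 : ‖M i j‖₊ ≤ ∑ j, ‖M i j‖₊ :=
    Finset.single_le_sum (f := fun j => ‖M i j‖₊) (fun _ _ => bot_le) (Finset.mem_univ j)
  have h2 : ∑ j, ‖M i j‖₊ ≤ ‖M‖₊ := by
    rw [Matrix.linfty_opNNNorm_def]
    exact Finset.le_sup (f := fun i => ∑ j, ‖M i j‖₊) (Finset.mem_univ i)
  exact_mod_cast h1.trans h2

end

theorem E11_pad {A B : Type} [Ring A] [Ring B] (φ : A →+* B) {ι : Type} (e : Matrix ι ι A) (k l : ℕ) :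
    (pad e k l).map φ = pad (e.map φ) k l := by
  unfold pad
  rw [Matrix.fromBlocks_map, Matrix.fromBlocks_map]
  simp [Matrix.map_zero, Matrix.map_one]

end Pool.Agent.PV
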