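import Pool.Agent.helper11.PV.Com11

set_option autoImplicit false

open scoped Matrix Topology
open Filter

namespace Pool.Agent.PV

open Pool.Agent.CZ

theorem K0B_left {A : Type} [Ring A] {ι κ : Type} [Fintype ι] [Fintype κ] (e : Matrix ι ι A) (he : e * e = e)
    (h : Matrix.fromBlocks e (0 : Matrix ι κ A) 0 0 * Matrix.fromBlocks e (0 : Matrix ι κ A) 0 0 =
      Matrix.fromBlocks e (0 : Matrix ι κ A) 0 0) :
    k0 (Matrix.fromBlocks e (0 : Matrix ι κ A) 0 0) h = k0 e he := by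
  refine E11_k0 _ _ _ _ (Matrix.fromRows e (0 : Matrix κ ι A)) (Matrix.fromCols e (0 : Matrix ι κ A)) ?_ ?_
  · rw [Matrix.fromRows_mul_fromCols, he]
    simp
  · rw [Matrix.fromCols_mul_fromRows, he]
    simp

theorem K0B_right {A : Type} [Ring A] {ι κ : Type} [Fintype ι] [Fintype κ] (f : Matrix κ κ A) (hf : f * f = f)
    (h : Matrix.fromBlocks (0 : Matrix ι ι A) 0 0 f * Matrix.fromBlocks (0 : Matrix ι ι A) 0 0 f =
      Matrix.fromBlocks (0 : Matrix ι ι A) 0 0 f) :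
    k0 (Matrix.fromBlocks (0 : Matrix ι ι A) 0 0 f) h = k0 f hf := by
  refine E11_k0 _ _ _ _ (Matrix.fromRows (0 : Matrix ι κ A) f) (Matrix.fromCols (0 : Matrix κ ι A) f) ?_ ?_
  · rw [Matrix.fromRows_mul_fromCols, hf]
    simp
  · rw [Matrix.fromCols_mul_fromRows, hf]
    simp

theorem K0B_block {A : Type} [Ring A] {ι κ : Type} [Fintype ι] [Fintype κ] (e : Matrix ι ι A)
    (f : Matrix κ κ A) (he : e * e = e) (hf : f * f = f)
    (h : Matrix.fromBlocks e 0 0 f * Matrix.fromBlocks e 0 0 f = Matrix.fromBlocks e 0 0 f) :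
    k0 (Matrix.fromBlocks e 0 0 f) h = k0 e he + k0 f hf := by
  obtain ⟨P, hP⟩ : ∃ P : Matrix (ι ⊕ κ) (ι ⊕ κ) A, P = Matrix.fromBlocks e 0 0 0 := ⟨_, rfl⟩
  obtain ⟨Q, hQ⟩ : ∃ Q : Matrix (ι ⊕ κ) (ι ⊕ κ) A, Q = Matrix.fromBlocks 0 0 0 f := ⟨_, rfl⟩
  have h1 : P * P = P := by
    rw [hP, Matrix.fromBlocks_multiply, he]
    simp
  have h2 : Q * Q = Q := by
    rw [hQ, Matrix.fromBlocks_multiply, hf]
    simp
  have h3 : Matrix.fromBlocks e 0 0 f = P + Q := by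
    rw [hP, hQ, Matrix.fromBlocks_add]
    simp
  have h4 : (P + Q) * (P + Q) = P + Q := by
    rw [← h3, h]
  have h5 : P * Q = 0 := by
    rw [hP, hQ, Matrix.fromBlocks_multiply]
    simp
  have h6 : Q * P = 0 := by
    rw [hP, hQ, Matrix.fromBlocks_multiply]
    simp
  rw [E11_congr h3 h h4, E11_add P Q h1 h2 h4 h5 h6]
  subst hP
  subst hQ
  rw [K0B_left e he h1, K0B_right f hf h2]

theorem K0B_zero {A : Type} [Ring A] {ι : Type} [Fintype ι] (h : (0 : Matrix ι ι A) * 0 = 0) :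
    k0 (0 : Matrix ι ι A) h = 0 := by
  have h1 : ((0 : Matrix ι ι A) + 0) * (0 + 0) = 0 + 0 := by simp
  have h2 := E11_add (0 : Matrix ι ι A) 0 h h h1 h h
  rw [E11_congr (add_zero (0 : Matrix ι ι A)) h1 h] at h2
  exact left_eq_add.1 h2

theorem K0B_one {A : Type} [Ring A] (n : ℕ) : ∀ h : (1 : Matrix (Fin n) (Fin n) A) * 1 = 1,
    k0 (1 : Matrix (Fin n) (Fin n) A) h = n • unitCls A := by
  induction n with
  | zero =>
    intro h
    have h1 : (1 : Matrix (Fin 0) (Fin 0) A) = 0 := by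
      ext i
      exact i.elim0
    rw [E11_congr h1 h (by simp), K0B_zero, zero_smul]
  | succ n ih =>
    intro h
    have h1 : Matrix.fromBlocks (1 : Matrix (Fin n) (Fin n) A) 0 0 (1 : Matrix (Fin 1) (Fin 1) A) *
        Matrix.fromBlocks (1 : Matrix (Fin n) (Fin n) A) 0 0 (1 : Matrix (Fin 1) (Fin 1) A) =
        Matrix.fromBlocks (1 : Matrix (Fin n) (Fin n) A) 0 0 (1 : Matrix (Fin 1) (Fin 1) A) := by
      rw [Matrix.fromBlocks_one, mul_one]
    have h2 := K0B_block (1 : Matrix (Fin n) (Fin n) A) (1 : Matrix (Fin 1) (Fin 1) A) (mul_one 1) (mul_one 1) h1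
    rw [ih, ← E11_fin 1 (1 : Matrix (Fin 1) (Fin 1) A) (mul_one 1)] at h2
    have h3 : (Matrix.fromBlocks (1 : Matrix (Fin n) (Fin n) A) 0 0 (1 : Matrix (Fin 1) (Fin 1) A)).submatrix
        (finSumFinEquiv : Fin n ⊕ Fin 1 ≃ Fin (n + 1)).symm (finSumFinEquiv : Fin n ⊕ Fin 1 ≃ Fin (n + 1)).symm =
        (1 : Matrix (Fin (n + 1)) (Fin (n + 1)) A) := by
      rw [Matrix.fromBlocks_one, Matrix.submatrix_one_equiv]
    have h4 : (Matrix.fromBlocks (1 : Matrix (Fin n) (Fin n) A) 0 0 (1 : Matrix (Fin 1) (Fin 1) A)).submatrix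
        (finSumFinEquiv : Fin n ⊕ Fin 1 ≃ Fin (n + 1)).symm (finSumFinEquiv : Fin n ⊕ Fin 1 ≃ Fin (n + 1)).symm *
        (Matrix.fromBlocks (1 : Matrix (Fin n) (Fin n) A) 0 0 (1 : Matrix (Fin 1) (Fin 1) A)).submatrix
        (finSumFinEquiv : Fin n ⊕ Fin 1 ≃ Fin (n + 1)).symm (finSumFinEquiv : Fin n ⊕ Fin 1 ≃ Fin (n + 1)).symm =
        (Matrix.fromBlocks (1 : Matrix (Fin n) (Fin n) A) 0 0 (1 : Matrix (Fin 1) (Fin 1) A)).submatrix
        (finSumFinEquiv : Fin n ⊕ Fin 1 ≃ Fin (n + 1)).symm (finSumFinEquiv : Fin n ⊕ Fin 1 ≃ Fin (n + 1)).symm := by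
      rw [h3, mul_one]
    rw [E11_reindex finSumFinEquiv _ h1 h4, E11_congr h3 h4 h] at h2
    rw [h2, succ_nsmul]
    rfl

/-- row pv:K0B -/
theorem K0B (_hK0E : K0E_stmt) (_hK0S : K0S_stmt) : K0B_stmt := by
  refine ⟨?_, ?_, ?_⟩
  · intro A _ ι κ _ _ e f he hf h
    exact K0B_block e f he hf h
  · intro A _ ι _ h
    exact K0B_zero h
  · intro A _ ι _ _ h
    rw [← K0B_one (Fintype.card ι) (mul_one 1)]
    have h1 : (1 : Matrix ι ι A).submatrix (Fintype.equivFin ι).symm (Fintype.equivFin ι).symm = 1 :=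
      Matrix.submatrix_one_equiv _
    have h2 : (1 : Matrix ι ι A).submatrix (Fintype.equivFin ι).symm (Fintype.equivFin ι).symm *
        (1 : Matrix ι ι A).submatrix (Fintype.equivFin ι).symm (Fintype.equivFin ι).symm =
        (1 : Matrix ι ι A).submatrix (Fintype.equivFin ι).symm (Fintype.equivFin ι).symm := by
      rw [h1, mul_one]
    rw [E11_reindex (Fintype.equivFin ι) _ h h2]
    exact E11_congr h1 h2 (mul_one 1)

end Pool.Agent.PV
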