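import Pool.Agent.helper11.PV.Com11

set_option autoImplicit false

open scoped Matrix Topology
open Filter

namespace Pool.Agent.PV

open Pool.Agent.CZ

/-- row pv:K0D -/
theorem K0D (hK0B : K0B_stmt) : K0D_stmt := by
  intro A _ ι _ e he k l
  have h1 : Matrix.fromBlocks (1 : Matrix (Fin k) (Fin k) A) 0 0 (0 : Matrix (Fin l) (Fin l) A) *
      Matrix.fromBlocks (1 : Matrix (Fin k) (Fin k) A) 0 0 (0 : Matrix (Fin l) (Fin l) A) =
      Matrix.fromBlocks (1 : Matrix (Fin k) (Fin k) A) 0 0 (0 : Matrix (Fin l) (Fin l) A) := by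
    rw [Matrix.fromBlocks_multiply]
    simp
  have h : pad e k l * pad e k l = pad e k l := by
    unfold pad
    rw [Matrix.fromBlocks_multiply, he, h1]
    simp
  refine ⟨h, ?_⟩
  have h2 := hK0B.1 A ι (Fin k ⊕ Fin l) e _ he h1 h
  have h3 := hK0B.1 A (Fin k) (Fin l) 1 0 (mul_one 1) (mul_zero 0) h1
  have h4 := hK0B.2.1 A (Fin l) (mul_zero 0)
  have h5 := hK0B.2.2 A (Fin k) (mul_one 1)
  rw [h3, h4, h5, add_zero, Fintype.card_fin] at h2
  exact h2

end Pool.Agent.PV
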