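import Pool.Agent.helper11.PV.Com11

set_option autoImplicit false

open scoped Matrix Topology
open Filter

namespace Pool.Agent.PV

open Pool.Agent.CZ

/-- row pv:K0E -/
theorem K0E : K0E_stmt := by
  intro A _ ι κ _ _ e f he hf x y h1 h2
  exact E11_k0 e f he hf x y h1 h2

end Pool.Agent.PV
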