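import Pool.Agent.helper11.PV.Com11

set_option autoImplicit false

open scoped Matrix Topology
open Filter

namespace Pool.Agent.PV

open Pool.Agent.CZ

/-- row pv:K0G -/
theorem K0G (_hK0E : K0E_stmt) (hK0B : K0B_stmt) : K0G_stmt := by
  intro A _ z
  have hneg : ∀ p : IdemMat A, ∃ (n m : ℕ) (e : Matrix (Fin n) (Fin n) A) (he : e * e = e),
      -cls p = k0 e he - m • unitCls A := by
    intro p
    have h0 : (1 - p.e) * (1 - p.e) = 1 - p.e := by
      have h : (1 - p.e) * (1 - p.e) = 1 - p.e - p.e + p.e * p.e := by noncomm_ring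
      rw [h, p.idem]
      abel
    have h1 : (p.e + (1 - p.e)) * (p.e + (1 - p.e)) = p.e + (1 - p.e) := by
      rw [add_sub_cancel, mul_one]
    have h2 := E11_add p.e (1 - p.e) p.idem h0 h1 (by rw [mul_sub, mul_one, p.idem, sub_self])
      (by rw [sub_mul, one_mul, p.idem, sub_self])
    rw [E11_congr (add_sub_cancel p.e 1) h1 (mul_one 1), hK0B.2.2 A (Fin p.n) (mul_one 1), Fintype.card_fin,
      ← E11_fin p.n p.e p.idem] at h2
    refine ⟨p.n, p.n, 1 - p.e, h0, ?_⟩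
    rw [h2]
    show -cls p = k0 (1 - p.e) h0 - (cls p + k0 (1 - p.e) h0)
    abel
  obtain ⟨w, rfl⟩ := QuotientAddGroup.mk_surjective z
  induction w using FreeAbelianGroup.induction_on with
  | zero =>
    refine ⟨0, 0, 0, mul_zero 0, ?_⟩
    rw [hK0B.2.1 A (Fin 0) (mul_zero 0), zero_smul, sub_zero]
    rfl
  | of p =>
    refine ⟨p.n, 0, p.e, p.idem, ?_⟩
    rw [zero_smul, sub_zero, ← E11_fin p.n p.e p.idem]
    rfl
  | neg p _ => exact hneg p
  | add a b ha hb =>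
    obtain ⟨n₁, m₁, e₁, he₁, h₁⟩ := ha
    obtain ⟨n₂, m₂, e₂, he₂, h₂⟩ := hb
    have h1 : Matrix.fromBlocks e₁ 0 0 e₂ * Matrix.fromBlocks e₁ 0 0 e₂ = Matrix.fromBlocks e₁ 0 0 e₂ := by
      rw [Matrix.fromBlocks_multiply, he₁, he₂]
      simp
    have h2 : (Matrix.fromBlocks e₁ 0 0 e₂).submatrix finSumFinEquiv.symm finSumFinEquiv.symm *
        (Matrix.fromBlocks e₁ 0 0 e₂).submatrix finSumFinEquiv.symm finSumFinEquiv.symm =
        (Matrix.fromBlocks e₁ 0 0 e₂).submatrix finSumFinEquiv.symm finSumFinEquiv.symm := by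
      rw [Matrix.submatrix_mul_equiv, h1]
    refine ⟨n₁ + n₂, m₁ + m₂, (Matrix.fromBlocks e₁ 0 0 e₂).submatrix finSumFinEquiv.symm finSumFinEquiv.symm, h2, ?_⟩
    rw [QuotientAddGroup.mk_add, h₁, h₂, ← E11_reindex finSumFinEquiv _ h1 h2, hK0B.1 A _ _ e₁ e₂ he₁ he₂ h1, add_smul]
    abel

end Pool.Agent.PV
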