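import Pool.Agent.helper11.PV.Com11

set_option autoImplicit false

open scoped Matrix Topology
open Filter

namespace Pool.Agent.PV

open Pool.Agent.CZ

/-- row pv:K0S -/
theorem K0S : K0S_stmt := by
  intro A _ ι _ e f he hf hs h1 h2
  exact E11_add e f he hf hs h1 h2

end Pool.Agent.PV
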