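import Pool.Agent.helper11.PV.Com11

set_option autoImplicit false

open scoped Matrix Topology
open Filter

namespace Pool.Agent.PV

open Pool.Agent.CZ

/-- row pv:K1B -/
theorem K1B (hK1R : K1R_stmt) : K1B_stmt := by
  intro A _ _ ι κ _ _ _ _ g h k hk
  let f : ι ⊕ κ ≃ Fin (Fintype.card ι + Fintype.card κ) :=
    (Equiv.sumCongr (Fintype.equivFin ι) (Fintype.equivFin κ)).trans finSumFinEquiv
  rw [← hK1R A _ _ f k, ← E11_cls1 hK1R]
  unfold k1 cls1
  rw [← QuotientAddGroup.mk_add, QuotientAddGroup.eq_iff_sub_mem, ← sub_sub]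
  refine AddSubgroup.subset_closure (Or.inr (Or.inl ⟨_, _, rix (Fintype.equivFin ι) g, rix (Fintype.equivFin κ) h,
    rix f k, ?_, rfl⟩))
  rw [E11_rix, E11_rix, E11_rix, hk]
  unfold dsum
  ext i j
  obtain ⟨i, rfl⟩ := finSumFinEquiv.surjective i
  obtain ⟨j, rfl⟩ := finSumFinEquiv.surjective j
  rcases i with i | i <;> rcases j with j | j <;> simp [f, Matrix.submatrix_apply]

end Pool.Agent.PV
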