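import Pool.Agent.helper11.PV.Com11

set_option autoImplicit false

open scoped Matrix Topology
open Filter

namespace Pool.Agent.PV

open Pool.Agent.CZ

/-- row pv:K1G -/
theorem K1G (hK1M : K1M_stmt) (hK1B : K1B_stmt) (hK1R : K1R_stmt) : K1G_stmt := by
  intro A _ _ z
  obtain ⟨w, rfl⟩ := QuotientAddGroup.mk_surjective z
  induction w using FreeAbelianGroup.induction_on with
  | zero => exact ⟨0, 1, ((hK1M A (Fin 0) 1 1).2.2.1).symm⟩
  | of p => exact ⟨p.n, p.g, E11_cls1 hK1R p.n p.g⟩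
  | neg p _ =>
    refine ⟨p.n, p.g⁻¹, ?_⟩
    rw [(hK1M A (Fin p.n) p.g 1).2.1, ← E11_cls1 hK1R p.n p.g]
    rfl
  | add a b ha hb =>
    obtain ⟨n, g, hg⟩ := ha
    obtain ⟨m, h, hh⟩ := hb
    let k : (Matrix (Fin n ⊕ Fin m) (Fin n ⊕ Fin m) A)ˣ :=
      { val := Matrix.fromBlocks (g : Matrix (Fin n) (Fin n) A) 0 0 (h : Matrix (Fin m) (Fin m) A)
        inv := Matrix.fromBlocks ((g⁻¹ : (Matrix (Fin n) (Fin n) A)ˣ) : Matrix (Fin n) (Fin n) A) 0 0
          ((h⁻¹ : (Matrix (Fin m) (Fin m) A)ˣ) : Matrix (Fin m) (Fin m) A)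
        val_inv := by
          rw [Matrix.fromBlocks_multiply]
          simp
        inv_val := by
          rw [Matrix.fromBlocks_multiply]
          simp }
    refine ⟨n + m, rix finSumFinEquiv k, ?_⟩
    rw [hK1R, hK1B A _ _ g h k rfl, QuotientAddGroup.mk_add, hg, hh]

end Pool.Agent.PV
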